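import Pool.Agent.N373.TG.Stm

set_option autoImplicit false
set_option linter.unusedSectionVars false

namespace Pool.Agent.N262.TG

open Finset Pool.Agent.TH440.DC Pool.Agent.N373.TG

section

variable {V : Type} [Fintype V] [DecidableEq V] [Nonempty V] (F : Finset (Finset V)) (t : ℕ)
  {ι : Type} [Fintype ι] [DecidableEq ι]

/-- indicator of a broken cherry -/
noncomputable def Ch (S : ι → V) (a b d : ι) : ℝ :=
  ci F t S {d}ᶜ * ci F t S {a, b}ᶜ * ((1 - ci F t S {a}ᶜ) * (1 - ci F t S {b}ᶜ))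

theorem Ch_nonneg (S : ι → V) (a b d : ι) : 0 ≤ Ch F t S a b d := by
  unfold Ch
  have h1 := ci_nonneg F t S {d}ᶜ
  have h2 := ci_nonneg F t S {a, b}ᶜ
  have h3 := ci_le_one F t S {a}ᶜ
  have h4 := ci_le_one F t S {b}ᶜ
  have h5 : 0 ≤ 1 - ci F t S {a}ᶜ := by linarith
  have h6 : 0 ≤ 1 - ci F t S {b}ᶜ := by linarith
  positivity

theorem inner_le {S : ι → V} (h : ci F t S univ = 0) (b : ι) :
    ∑ a : ι, ci F t S {a, b}ᶜ * ((1 - ci F t S {a}ᶜ) * (1 - ci F t S {b}ᶜ)) ≤
      (t : ℝ) - cc F t S := by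
  classical
  rcases ci_bit F t S {b}ᶜ with hb | hb
  · have h1 : ¬ Cl F t S {b}ᶜ := by
      intro hh
      unfold ci at hb
      rw [if_pos hh] at hb
      norm_num at hb
    unfold Cl at h1
    push Not at h1
    obtain ⟨R, hRb, hR, hM⟩ := h1
    have hz : ∀ a : ι, a ∉ R → ci F t S {a, b}ᶜ = 0 := by
      intro a ha
      unfold ci
      rw [if_neg]
      intro hh
      refine hh R ?_ hR hM
      intro x hx
      have hxb := hRb hx
      rw [mem_compl, mem_singleton] at hxb
      rw [mem_compl, mem_insert, mem_singleton]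
      rintro (rfl | rfl)
      · exact ha hx
      · exact hxb rfl
    have h2 : ∀ a ∈ (univ : Finset ι),
        ci F t S {a, b}ᶜ * ((1 - ci F t S {a}ᶜ) * (1 - ci F t S {b}ᶜ)) ≤
        (if a ∈ R then (1 : ℝ) else 0) - ci F t S {a}ᶜ := by
      intro a _
      rw [hb, sub_zero, mul_one]
      have e1 := ci_le_one F t S {a, b}ᶜ
      have e2 := ci_le_one F t S {a}ᶜ
      have e3 := ci_nonneg F t S {a, b}ᶜ
      have e4 := ci_nonneg F t S {a}ᶜ
      split_ifs with ha
      · nlinarith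
      · have e5 := hz a ha
        have hsub : ({a, b} : Finset ι)ᶜ ⊆ {a}ᶜ := by
          intro x hx
          rw [mem_compl, mem_insert, mem_singleton] at hx
          rw [mem_compl, mem_singleton]
          exact fun hh => hx (Or.inl hh)
        have e6 := ci_anti F (r := t) (S := S) hsub
        rw [e5] at e6 ⊢
        linarith
    refine (Finset.sum_le_sum h2).trans ?_
    rw [Finset.sum_sub_distrib, Finset.sum_ite_mem, univ_inter, Finset.sum_const, hR,
      nsmul_eq_mul, mul_one]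
    exact le_refl _
  · have h1 : ∀ a ∈ (univ : Finset ι),
        ci F t S {a, b}ᶜ * ((1 - ci F t S {a}ᶜ) * (1 - ci F t S {b}ᶜ)) = 0 := by
      intro a _
      rw [hb]; ring
    rw [Finset.sum_eq_zero h1]
    have := cc_nonclique F t h
    linarith

theorem sum_Ch_le (S : ι → V) : ∑ b : ι, ∑ a : ι, ∑ d : ι, Ch F t S a b d ≤
    (Fintype.card ι : ℝ) * ((1 - ci F t S univ) * (cc F t S * ((t : ℝ) - cc F t S))) := by
  have e : ∀ b a : ι, ∑ d : ι, Ch F t S a b d =
      cc F t S * (ci F t S {a, b}ᶜ * ((1 - ci F t S {a}ᶜ) * (1 - ci F t S {b}ᶜ))) := by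
    intro b a
    unfold Ch cc
    rw [Finset.sum_mul]
    refine Finset.sum_congr rfl fun d _ => ?_
    ring
  rcases ci_bit F t S univ with h | h
  · rw [h, sub_zero, one_mul]
    have h1 : ∀ b ∈ (univ : Finset ι), ∑ a : ι, ∑ d : ι, Ch F t S a b d ≤
        cc F t S * ((t : ℝ) - cc F t S) := by
      intro b _
      rw [Finset.sum_congr rfl fun a _ => e b a, ← Finset.mul_sum]
      exact mul_le_mul_of_nonneg_left (inner_le F t h b) (cc_nonneg F t S)
    refine (Finset.sum_le_sum h1).trans ?_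
    rw [Finset.sum_const, card_univ, nsmul_eq_mul]
  · have h0 : ∀ a : ι, ci F t S {a}ᶜ = 1 := by
      intro a
      have h1 := ci_anti F (r := t) (S := S) (subset_univ ({a}ᶜ : Finset ι))
      have h2 := ci_le_one F t S {a}ᶜ
      linarith
    rw [h, sub_self, zero_mul, mul_zero]
    refine le_of_eq (Finset.sum_eq_zero fun b _ => Finset.sum_eq_zero fun a _ =>
      Finset.sum_eq_zero fun d _ => ?_)
    unfold Ch
    rw [h0 a]; ring

theorem map_compl_singleton {κ : Type} [Fintype κ] [DecidableEq κ] (σ : ι ≃ κ) (i : ι) :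
    ({i}ᶜ : Finset ι).map σ.toEmbedding = {σ i}ᶜ := by
  ext x
  simp only [mem_map, mem_compl, mem_singleton, Equiv.coe_toEmbedding]
  constructor
  · rintro ⟨a, ha, rfl⟩ hh
    exact ha (σ.injective hh)
  · intro hx
    exact ⟨σ.symm x, fun hh => hx (by rw [← hh]; simp), by simp⟩

theorem map_compl_pair {κ : Type} [Fintype κ] [DecidableEq κ] (σ : ι ≃ κ) (i l : ι) :
    ({i, l}ᶜ : Finset ι).map σ.toEmbedding = {σ i, σ l}ᶜ := by
  ext x
  simp only [mem_map, mem_compl, mem_insert, mem_singleton, Equiv.coe_toEmbedding]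
  constructor
  · rintro ⟨a, ha, rfl⟩ hh
    exact ha (by
      rcases hh with hh | hh
      · exact Or.inl (σ.injective hh)
      · exact Or.inr (σ.injective hh))
  · intro hx
    exact ⟨σ.symm x, fun hh => hx (by
      rcases hh with hh | hh
      · exact Or.inl (by rw [← hh]; simp)
      · exact Or.inr (by rw [← hh]; simp)), by simp⟩

theorem Ch_comp (σ : ι ≃ ι) (S : ι → V) (a b d : ι) :
    Ch F t (S ∘ σ) a b d = Ch F t S (σ a) (σ b) (σ d) := by
  unfold Ch
  have h1 := ci_comp F t σ.toEmbedding S ({d}ᶜ : Finset ι)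
  have h2 := ci_comp F t σ.toEmbedding S ({a, b}ᶜ : Finset ι)
  have h3 := ci_comp F t σ.toEmbedding S ({a}ᶜ : Finset ι)
  have h4 := ci_comp F t σ.toEmbedding S ({b}ᶜ : Finset ι)
  rw [map_compl_singleton] at h1 h3 h4
  rw [map_compl_pair] at h2
  have e : (S ∘ (σ.toEmbedding : ι → ι)) = S ∘ σ := rfl
  rw [e] at h1 h2 h3 h4
  rw [h1, h2, h3, h4]

theorem av_Ch_eq {s : ℕ} (hs : Fintype.card ι = s + 3) {a b d a' b' d' : ι} (h1 : a ≠ b)
    (h2 : a ≠ d) (h3 : b ≠ d) (h1' : a' ≠ b') (h2' : a' ≠ d') (h3' : b' ≠ d') :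
    av (fun S : ι → V => Ch F t S a b d) = av (fun S : ι → V => Ch F t S a' b' d') := by
  let e : Fin 3 ↪ ι := ⟨![a, b, d], by
    intro x y hxy
    fin_cases x <;> fin_cases y <;> simp_all⟩
  let e' : Fin 3 ↪ ι := ⟨![a', b', d'], by
    intro x y hxy
    fin_cases x <;> fin_cases y <;> simp_all⟩
  obtain ⟨σ, hσ⟩ := exists_sum_equiv hs e
  obtain ⟨σ', hσ'⟩ := exists_sum_equiv hs e'
  let τ : ι ≃ ι := σ'.symm.trans σ
  have t0 : τ a' = a := by
    show σ (σ'.symm a') = a
    have : σ'.symm a' = Sum.inr 0 := by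
      rw [Equiv.symm_apply_eq, hσ']; rfl
    rw [this, hσ]; rfl
  have t1 : τ b' = b := by
    show σ (σ'.symm b') = b
    have : σ'.symm b' = Sum.inr 1 := by
      rw [Equiv.symm_apply_eq, hσ']; rfl
    rw [this, hσ]; rfl
  have t2 : τ d' = d := by
    show σ (σ'.symm d') = d
    have : σ'.symm d' = Sum.inr 2 := by
      rw [Equiv.symm_apply_eq, hσ']; rfl
    rw [this, hσ]; rfl
  rw [← av_comp τ.toEmbedding (fun S : ι → V => Ch F t S a' b' d')]
  refine av_congr fun S => ?_
  have := Ch_comp F t τ S a' b' d'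
  rw [t0, t1, t2] at this
  exact this.symm

theorem sum_av_Ch_ge {j : ℕ} (hj : Fintype.card ι = j + 2) {a b d : ι} (hab : a ≠ b)
    (had : a ≠ d) (hbd : b ≠ d) :
    ((j : ℝ) + 2) * (((j : ℝ) + 1) * ((j : ℝ) * av (fun S : ι → V => Ch F t S a b d))) ≤
      ∑ b : ι, ∑ a : ι, ∑ d : ι, av (fun S : ι → V => Ch F t S a b d) := by
  have hj3 : ∃ s, Fintype.card ι = s + 3 := by
    have h3 : ({a, b, d} : Finset ι).card ≤ Fintype.card ι := by
      rw [← card_univ]; exact card_le_card (subset_univ _)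
    have h4 : ({a, b, d} : Finset ι).card = 3 := by
      rw [card_eq_three]; exact ⟨a, b, d, hab, had, hbd, rfl⟩
    exact ⟨Fintype.card ι - 3, by omega⟩
  obtain ⟨s, hs⟩ := hj3
  set C : ℝ := av (fun S : ι → V => Ch F t S a b d) with hC
  have hjs : (j : ℝ) = s + 1 := by
    have : j = s + 1 := by omega
    rw [this]; push_cast; ring
  have h1 : ∀ b' a' : ι, a' ≠ b' → (j : ℝ) * C ≤
      ∑ d' : ι, av (fun S : ι → V => Ch F t S a' b' d') := by
    intro b' a' hab'
    have hsub : (univ.erase b').erase a' ⊆ (univ : Finset ι) := subset_univ _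
    refine le_trans (le_of_eq ?_) (Finset.sum_le_sum_of_subset_of_nonneg hsub
      fun d' _ _ => av_nonneg fun S => Ch_nonneg F t S a' b' d')
    have : ∀ d' ∈ (univ.erase b').erase a', av (fun S : ι → V => Ch F t S a' b' d') = C := by
      intro d' hd'
      rw [mem_erase, mem_erase] at hd'
      exact av_Ch_eq F t hs hab' (Ne.symm hd'.1) (Ne.symm hd'.2.1) hab had hbd
    rw [Finset.sum_congr rfl this, Finset.sum_const, nsmul_eq_mul, card_erase_of_mem,
      card_erase_of_mem (mem_univ _), card_univ, hj]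
    · congr 1
    · rw [mem_erase]; exact ⟨hab', mem_univ _⟩
  have h2 : ∀ b' : ι, ((j : ℝ) + 1) * ((j : ℝ) * C) ≤
      ∑ a' : ι, ∑ d' : ι, av (fun S : ι → V => Ch F t S a' b' d') := by
    intro b'
    have hsub : (univ.erase b') ⊆ (univ : Finset ι) := subset_univ _
    refine le_trans ?_ (Finset.sum_le_sum_of_subset_of_nonneg hsub
      fun a' _ _ => Finset.sum_nonneg fun d' _ => av_nonneg fun S => Ch_nonneg F t S a' b' d')
    have : ∀ a' ∈ (univ.erase b'), (j : ℝ) * C ≤
        ∑ d' : ι, av (fun S : ι → V => Ch F t S a' b' d') := by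
      intro a' ha'
      rw [mem_erase] at ha'
      exact h1 b' a' ha'.1
    refine le_trans (le_of_eq ?_) (Finset.sum_le_sum this)
    rw [Finset.sum_const, nsmul_eq_mul, card_erase_of_mem (mem_univ _), card_univ, hj]
    congr 1
    have : j + 2 - 1 = j + 1 := by omega
    rw [this]; push_cast; ring
  refine le_trans (le_of_eq ?_) (Finset.sum_le_sum fun b' _ => h2 b')
  rw [Finset.sum_const, nsmul_eq_mul, card_univ, hj]
  push_cast; ring

theorem ls_eq {j : ℕ} (hj : Fintype.card ι = j + 2) :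
    av (fun S : ι → V => (1 - ci F t S univ) * (cc F t S * ((t : ℝ) - cc F t S))) =
      ls F t (j + 1) := by
  let σ : Fin (j + 1 + 1) ≃ ι := (Fintype.equivFinOfCardEq hj).symm
  unfold ls
  rw [← av_comp σ.toEmbedding]
  refine av_congr fun S => ?_
  have h1 : ci F t (S ∘ σ.toEmbedding) univ = ci F t S univ := by
    rw [ci_comp]; congr 1; simp
  have h2 : cc F t (S ∘ σ.toEmbedding) = cc F t S := by
    unfold cc
    rw [← Equiv.sum_comp σ]
    refine Finset.sum_congr rfl fun i _ => ?_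
    rw [ci_comp, map_compl_singleton]
  rw [h1, h2]

end

theorem cherry : S_CHERRY := by
  intro V _ _ _ F t j ι _ _ hj a b d hab had hbd
  have h1 := sum_av_Ch_ge F t hj hab had hbd
  have h2 : ∑ b : ι, ∑ a : ι, ∑ d : ι, av (fun S : ι → V => Ch F t S a b d) =
      av (fun S : ι → V => ∑ b : ι, ∑ a : ι, ∑ d : ι, Ch F t S a b d) := by
    rw [av_finset_sum]
    refine Finset.sum_congr rfl fun b _ => ?_
    rw [av_finset_sum]
    refine Finset.sum_congr rfl fun a _ => ?_
    rw [av_finset_sum]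
  have h3 := av_mono (fun S : ι → V => sum_Ch_le F t S)
  rw [av_mul_left, ls_eq F t hj, hj] at h3
  rw [h2] at h1
  have h4 := h1.trans h3
  push_cast at h4
  have h5 : (0 : ℝ) < (j : ℝ) + 2 := by positivity
  have h6 := le_of_mul_le_mul_left h4 h5
  have e : (fun S : ι → V => ci F t S {d}ᶜ * ci F t S {a, b}ᶜ *
      ((1 - ci F t S {a}ᶜ) * (1 - ci F t S {b}ᶜ))) = fun S : ι → V => Ch F t S a b d := rfl
  rw [e]
  linarith

end Pool.Agent.N262.TG
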