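import Pool.Agent.N373.TG.Stm

set_option autoImplicit false

namespace Pool.Agent.N262.TG

open Finset Pool.Agent.TH440.DC Pool.Agent.N373.TG

theorem av_prod_pow {V : Type} [Fintype V] {ι : Type} [Fintype ι] [DecidableEq ι] (g : V → ℝ) :
    av (fun x : ι → V => ∏ i, g (x i)) = (av g) ^ Fintype.card ι := by
  unfold av
  have h := Finset.prod_univ_sum (fun _ : ι => (univ : Finset V)) (fun _ v => g v)
  rw [Fintype.piFinset_univ] at h
  rw [← h, div_pow, Finset.prod_const, Fintype.card_fun, card_univ]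
  push_cast
  rfl

theorem exp_bound {x : ℝ} (h : |x| ≤ 1) : Real.exp x ≤ 1 + x + x ^ 2 := by
  have := Real.abs_exp_sub_one_sub_id_le h
  have h2 := (abs_le.mp this).2
  linarith

theorem mgf {V : Type} [Fintype V] [Nonempty V] (f : V → ℝ) (hf : ∀ x, 0 ≤ f x ∧ f x ≤ 1)
    {l : ℝ} (hl : |l| ≤ 1) :
    av (fun v => Real.exp (l * (f v - av f))) ≤ Real.exp (l ^ 2) := by
  have p0 : 0 ≤ av f := av_nonneg fun x => (hf x).1
  have p1 : av f ≤ 1 := av_le_const fun x => (hf x).2
  have h1 : ∀ v, Real.exp (l * (f v - av f)) ≤ (1 + l ^ 2) + (l * f v - l * av f) := by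
    intro v
    have a1 : |f v - av f| ≤ 1 := by
      rw [abs_le]
      constructor
      · linarith [(hf v).1]
      · linarith [(hf v).2]
    have a2 : |l * (f v - av f)| ≤ 1 := by
      rw [abs_mul]
      exact mul_le_one₀ hl (abs_nonneg _) a1
    have a3 := exp_bound a2
    have a4 : (l * (f v - av f)) ^ 2 ≤ l ^ 2 := by
      rw [mul_pow]
      have : (f v - av f) ^ 2 ≤ 1 := by
        rw [← sq_abs]
        exact pow_le_one₀ (abs_nonneg _) a1
      nlinarith [sq_nonneg l]
    linarith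
  refine (av_mono h1).trans ?_
  rw [av_add, av_sub, av_const, av_const, av_mul_left]
  have := Real.add_one_le_exp (l ^ 2)
  linarith

theorem mgfN {V : Type} [Fintype V] [Nonempty V] {ι : Type} [Fintype ι] [DecidableEq ι]
    (f : V → ℝ) (hf : ∀ x, 0 ≤ f x ∧ f x ≤ 1) {l : ℝ} (hl : |l| ≤ 1) :
    av (fun x : ι → V => Real.exp (l * ((∑ i, f (x i)) - Fintype.card ι * av f))) ≤
      Real.exp ((Fintype.card ι : ℝ) * l ^ 2) := by
  have h1 : ∀ x : ι → V, Real.exp (l * ((∑ i, f (x i)) - Fintype.card ι * av f)) =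
      ∏ i, Real.exp (l * (f (x i) - av f)) := by
    intro x
    rw [← Real.exp_sum]
    congr 1
    rw [← Finset.mul_sum, Finset.sum_sub_distrib, Finset.sum_const, card_univ, nsmul_eq_mul]
  rw [av_congr h1, av_prod_pow (fun v => Real.exp (l * (f v - av f))), Real.exp_nat_mul]
  exact pow_le_pow_left₀ (av_nonneg fun v => (Real.exp_pos _).le) (mgf f hf hl) _

theorem conc : S_CONC := by
  intro V _ _ ι _ _ f hf η h0 h1
  set N : ℝ := (Fintype.card ι : ℝ) with hN
  have key : ∀ x : ι → V, (if η * N ≤ |(∑ i, f (x i)) - N * av f| then (1 : ℝ) else 0) ≤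
      Real.exp (-(η ^ 2 / 2 * N)) * Real.exp ((η / 2) * ((∑ i, f (x i)) - N * av f)) +
      Real.exp (-(η ^ 2 / 2 * N)) * Real.exp ((-(η / 2)) * ((∑ i, f (x i)) - N * av f)) := by
    intro x
    split_ifs with h
    · rcases le_abs.mp h with h | h
      · have : (1 : ℝ) ≤ Real.exp (-(η ^ 2 / 2 * N)) *
            Real.exp ((η / 2) * ((∑ i, f (x i)) - N * av f)) := by
          rw [← Real.exp_add]
          apply Real.one_le_exp
          nlinarith [mul_le_mul_of_nonneg_left h (by positivity : (0 : ℝ) ≤ η / 2)]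
        have h2 : 0 ≤ Real.exp (-(η ^ 2 / 2 * N)) *
            Real.exp ((-(η / 2)) * ((∑ i, f (x i)) - N * av f)) := by positivity
        linarith
      · have : (1 : ℝ) ≤ Real.exp (-(η ^ 2 / 2 * N)) *
            Real.exp ((-(η / 2)) * ((∑ i, f (x i)) - N * av f)) := by
          rw [← Real.exp_add]
          apply Real.one_le_exp
          nlinarith [mul_le_mul_of_nonneg_left h (by positivity : (0 : ℝ) ≤ η / 2)]
        have h2 : 0 ≤ Real.exp (-(η ^ 2 / 2 * N)) *
            Real.exp ((η / 2) * ((∑ i, f (x i)) - N * av f)) := by positivity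
        linarith
    · positivity
  refine (av_mono key).trans ?_
  rw [av_add, av_mul_left, av_mul_left]
  have b1 := mgfN (ι := ι) f hf (l := η / 2) (by rw [abs_of_pos (by positivity)]; linarith)
  have b2 := mgfN (ι := ι) f hf (l := -(η / 2)) (by
    rw [abs_neg, abs_of_pos (by positivity)]; linarith)
  rw [← hN] at b1 b2
  have e : Real.exp (-(N * η ^ 2 / 4)) =
      Real.exp (-(η ^ 2 / 2 * N)) * Real.exp (N * (η / 2) ^ 2) := by
    rw [← Real.exp_add]; congr 1; ring
  have e2 : N * (-(η / 2)) ^ 2 = N * (η / 2) ^ 2 := by ring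
  rw [e2] at b2
  rw [e]
  have hp : 0 ≤ Real.exp (-(η ^ 2 / 2 * N)) := (Real.exp_pos _).le
  have c1 := mul_le_mul_of_nonneg_left b1 hp
  have c2 := mul_le_mul_of_nonneg_left b2 hp
  linarith

end Pool.Agent.N262.TG
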